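import Mathlib

/-!
# Conservative real polynomial Henon maps with an annular rotation domain, in every degree

`f (x, y) = (p x - b y, x)` with `b = 1` or `b = -1`. For every degree `d ≥ 2` and both signs of `b` we give a polynomial `p` of
degree `d` such that the origin is the only periodic point of `f`; so the open annulus `ℝ² \ {0}` is invariant and free of
periodic points.

Proof. The first coordinates `x n` of a periodic orbit satisfy `x (n + 1) + b x (n - 1) = p (x n)`. For `b = 1` we take
`p = 2 x + x ^ d`: the sum of `x n ^ d = x (n + 1) - 2 x n + x (n - 1)` over a period is `0`, which settles the even `d`; and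
the sum of `x n ^ (d + 1)` over a period is `- ∑ (x (n + 1) - x n) ^ 2 ≤ 0`, which settles the odd `d`. For `b = -1` we take
`p = x ^ d`: the sums of `x n ^ d = x (n + 1) - x (n - 1)` and of `x n ^ (d + 1) = x n x (n + 1) - x (n - 1) x n` over a period
are `0`.
-/

set_option autoImplicit false

open Polynomial Set

namespace Pool.Agent.Results.MP_8a808a_an.EveryDegree

/-- the Henon map `(x, y) ↦ (p x - b y, x)` of the plane -/
def henon (p : ℝ[X]) (b : ℝ) (z : ℝ × ℝ) : ℝ × ℝ := (p.eval z.1 - b * z.2, z.1)

/-- `A` is an annular rotation domain of `f`: an open set which is homeomorphic to the open annulus `𝕊¹ × (0, 1)`, with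
`f (A) = A`, which contains no periodic point of `f` -/
structure AnnularRotationDomain (f : ℝ × ℝ → ℝ × ℝ) (A : Set (ℝ × ℝ)) : Prop where
  isOpen : IsOpen A
  annulus : Nonempty (A ≃ₜ Circle × Ioo (0 : ℝ) 1)
  image : f '' A = A
  aperiodic : ∀ z ∈ A, ∀ n : ℕ, 1 ≤ n → f^[n] z ≠ z

/-- `(0, ∞)` and `(0, 1)` are homeomorphic -/
noncomputable def ray : Ioi (0 : ℝ) ≃ₜ Ioo (0 : ℝ) 1 where
  toFun r := ⟨r.1 / (1 + r.1), by
    have h : (0 : ℝ) < r.1 := r.2
    exact ⟨by positivity, by rw [div_lt_one (by positivity)]; linarith⟩⟩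
  invFun t := ⟨t.1 / (1 - t.1), by
    have h0 : (0 : ℝ) < t.1 := t.2.1
    have h1 : t.1 < 1 := t.2.2
    exact div_pos h0 (by linarith)⟩
  left_inv r := by
    have h : (0 : ℝ) < r.1 := r.2
    ext
    have h1 : (1 : ℝ) + r.1 ≠ 0 := by positivity
    show r.1 / (1 + r.1) / (1 - r.1 / (1 + r.1)) = r.1
    have e : 1 - r.1 / (1 + r.1) = 1 / (1 + r.1) := by field_simp; ring
    rw [e]
    field_simp
  right_inv t := by
    have h0 : (0 : ℝ) < t.1 := t.2.1
    have h1 : t.1 < 1 := t.2.2
    ext
    have h2 : (1 : ℝ) - t.1 ≠ 0 := by linarith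
    show t.1 / (1 - t.1) / (1 + t.1 / (1 - t.1)) = t.1
    have e : 1 + t.1 / (1 - t.1) = 1 / (1 - t.1) := by field_simp; ring
    rw [e]
    field_simp
  continuous_toFun := by
    refine Continuous.subtype_mk (Continuous.div continuous_subtype_val
      (continuous_const.add continuous_subtype_val) fun r => ?_) _
    have h : (0 : ℝ) < r.1 := r.2
    show (1 : ℝ) + r.1 ≠ 0
    positivity
  continuous_invFun := by
    refine Continuous.subtype_mk (Continuous.div continuous_subtype_val
      (continuous_const.sub continuous_subtype_val) fun t => ?_) _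
    have h1 : t.1 < 1 := t.2.2
    show (1 : ℝ) - t.1 ≠ 0
    exact (sub_pos.2 h1).ne'

/-- the plane without the origin is an open annulus -/
theorem annulus_compl : Nonempty ((({0} : Set (ℝ × ℝ))ᶜ : Set (ℝ × ℝ)) ≃ₜ Circle × Ioo (0 : ℝ) 1) := by
  let e1 : (({0} : Set (ℝ × ℝ))ᶜ : Set (ℝ × ℝ)) ≃ₜ (({0} : Set ℂ)ᶜ : Set ℂ) :=
    (Complex.equivRealProdCLM.symm.toHomeomorph).subtype fun x => by
      show x ≠ 0 ↔ Complex.equivRealProdCLM.symm x ≠ 0
      rw [ne_eq, ne_eq, map_eq_zero_iff _ Complex.equivRealProdCLM.symm.injective]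
  let e2 := homeomorphUnitSphereProd ℂ
  let e3 : Metric.sphere (0 : ℂ) 1 ≃ₜ Circle :=
    { toFun := fun z => ⟨z.1, by
        rw [← SetLike.mem_coe, Submonoid.coe_unitSphere]
        exact z.2⟩
      invFun := fun z => ⟨z.1, by
        have := z.2
        rw [← SetLike.mem_coe, Submonoid.coe_unitSphere] at this
        exact this⟩
      left_inv := fun z => rfl
      right_inv := fun z => rfl
      continuous_toFun := by fun_prop
      continuous_invFun := by fun_prop }
  exact ⟨(e1.trans e2).trans (e3.prodCongr ray)⟩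

/-- if the origin is the only periodic point, then the complement of the origin is an annular rotation domain -/
theorem of_origin {p : ℝ[X]} {b : ℝ} (hb : b ≠ 0) (h0 : p.eval 0 = 0)
    (h : ∀ z : ℝ × ℝ, ∀ n : ℕ, 1 ≤ n → (henon p b)^[n] z = z → z = 0) :
    AnnularRotationDomain (henon p b) {0}ᶜ where
  isOpen := isOpen_compl_singleton
  annulus := annulus_compl
  image := by
    ext w
    constructor
    · rintro ⟨z, hz, rfl⟩ hw
      apply hz
      have hw' : henon p b z = 0 := hw
      have h1 : z.1 = 0 := congrArg Prod.snd hw'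
      have h2 : p.eval z.1 - b * z.2 = 0 := congrArg Prod.fst hw'
      rw [h1, h0, zero_sub, neg_eq_zero, mul_eq_zero] at h2
      exact Prod.ext h1 (h2.resolve_left hb)
    · intro hw
      refine ⟨(w.2, (p.eval w.2 - w.1) / b), ?_, ?_⟩
      · intro h1
        apply hw
        have h2 : w.2 = 0 := congrArg Prod.fst h1
        have h3 : (p.eval w.2 - w.1) / b = 0 := congrArg Prod.snd h1
        rw [h2, h0, zero_sub, div_eq_zero_iff] at h3
        have h4 : w.1 = 0 := by
          rcases h3 with h3 | h3
          · linarith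
          · exact absurd h3 hb
        exact Prod.ext h4 h2
      · refine Prod.ext ?_ rfl
        show p.eval w.2 - b * ((p.eval w.2 - w.1) / b) = w.1
        field_simp
        ring
  aperiodic z hz n hn h1 := hz (h z n hn h1)

/-- the telescoping argument -/
theorem telescope {n : ℕ} {F g : ℕ → ℝ} (hF : F n = F 0) (hg : ∀ k, 0 ≤ g k)
    (h : ∀ k, g k ≤ F (k + 1) - F k) {k : ℕ} (hk : k < n) : g k = 0 := by
  have h1 : ∑ i ∈ Finset.range n, g i ≤ 0 := by
    calc ∑ i ∈ Finset.range n, g i ≤ ∑ i ∈ Finset.range n, (F (i + 1) - F i) :=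
          Finset.sum_le_sum fun i _ => h i
      _ = F n - F 0 := Finset.sum_range_sub F n
      _ = 0 := by rw [hF, sub_self]
  have h2 := Finset.single_le_sum (f := g) (fun i _ => hg i) (Finset.mem_range.2 hk)
  exact le_antisymm (h2.trans h1) (hg k)

/-- the first coordinates of an orbit -/
theorem step (p : ℝ[X]) (b : ℝ) (z : ℝ × ℝ) (k : ℕ) :
    ((henon p b)^[k + 2] z).1 = p.eval ((henon p b)^[k + 1] z).1 - b * ((henon p b)^[k] z).1 := by
  rw [Function.iterate_succ_apply' (henon p b) (k + 1)]
  show p.eval ((henon p b)^[k + 1] z).1 - b * ((henon p b)^[k + 1] z).2 = _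
  have h : ((henon p b)^[k + 1] z).2 = ((henon p b)^[k] z).1 := by
    rw [Function.iterate_succ_apply']
    rfl
  rw [h]

/-- the origin is the only periodic point if there is a suitable telescoping function -/
theorem origin_of (p : ℝ[X]) (b : ℝ) (m : ℕ) (F : ℝ → ℝ → ℝ) (hm : Even m)
    (h : ∀ x y w : ℝ, w = p.eval y - b * x → y ^ m ≤ F y w - F x y)
    (z : ℝ × ℝ) (n : ℕ) (hn : 1 ≤ n) (hz : (henon p b)^[n] z = z) : z = 0 := by
  set x : ℕ → ℝ := fun k => ((henon p b)^[k] z).1 with hx
  have h1 : ∀ k < n, x (k + 1) ^ m = 0 := by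
    intro k hk
    refine telescope (n := n) (F := fun k => F (x k) (x (k + 1))) (g := fun k => x (k + 1) ^ m) ?_
      (fun k => hm.pow_nonneg _) (fun k => h _ _ _ (step p b z k)) hk
    have e0 : x n = x 0 := by
      show ((henon p b)^[n] z).1 = ((henon p b)^[0] z).1
      rw [hz]
      rfl
    have e1 : x (n + 1) = x (0 + 1) := by
      show ((henon p b)^[n + 1] z).1 = ((henon p b)^[0 + 1] z).1
      rw [Function.iterate_succ_apply', hz, Function.iterate_succ_apply']
      rfl
    show F (x n) (x (n + 1)) = F (x 0) (x (0 + 1))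
    rw [e0, e1]
  have h2 : ∀ k < n, x (k + 1) = 0 := fun k hk => by
    have h3 := h1 k hk
    by_contra h4
    exact pow_ne_zero m h4 h3
  have h3 : z.1 = 0 := by
    obtain ⟨k, rfl⟩ : ∃ k, n = k + 1 := ⟨n - 1, by omega⟩
    have h4 := h2 k (Nat.lt_succ_self k)
    have h5 : x (k + 1) = z.1 := by
      show ((henon p b)^[k + 1] z).1 = z.1
      rw [hz]
    rw [← h5, h4]
  have h4 : z.2 = 0 := by
    obtain ⟨k, rfl⟩ : ∃ k, n = k + 1 := ⟨n - 1, by omega⟩
    have h5 : z.2 = ((henon p b)^[k] z).1 := by
      conv_lhs => rw [← hz]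
      rw [Function.iterate_succ_apply']
      rfl
    rw [h5]
    rcases Nat.eq_zero_or_pos k with rfl | hk
    · exact h3
    · have h6 := h2 (k - 1) (by omega)
      have h7 : k - 1 + 1 = k := by omega
      rw [h7] at h6
      exact h6
  exact Prod.ext h3 h4

/-- **Conservative Henon maps with an annular rotation domain.** For every `d ≥ 2` and every `b` with `|b| = 1` there is a real
polynomial `p` of degree `d` such that the plane without the origin is an annular rotation domain of the Henon map
`(x, y) ↦ (p x - b y, x)`. -/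
theorem result (d : ℕ) (hd : 2 ≤ d) (b : ℝ) (hb : |b| = 1) :
    ∃ p : ℝ[X], p.natDegree = d ∧ AnnularRotationDomain (henon p b) {0}ᶜ := by
  have hb0 : b ≠ 0 := by
    rintro rfl
    simp at hb
  rcases (abs_eq one_pos.le).1 hb with rfl | rfl
  · refine ⟨X ^ d + C 2 * X, ?_, of_origin hb0 ?_ ?_⟩
    · rw [natDegree_add_eq_left_of_natDegree_lt, natDegree_X_pow]
      rw [natDegree_X_pow, natDegree_C_mul_X _ two_ne_zero]
      omega
    · simp [show d ≠ 0 by omega]
    · rcases Nat.even_or_odd d with he | ho
      · exact origin_of _ _ d (fun x y => y - x) he fun x y w hw => by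
          rw [hw]
          simp only [eval_add, eval_pow, eval_X, eval_mul, eval_C]
          apply le_of_eq
          ring
      · exact origin_of _ _ (d + 1) (fun x y => x * (y - x)) ho.add_one fun x y w hw => by
          rw [hw]
          simp only [eval_add, eval_pow, eval_X, eval_mul, eval_C]
          have e : y * (y ^ d + 2 * y - 1 * x - y) - x * (y - x) = y ^ (d + 1) + (y - x) ^ 2 := by ring
          rw [e]
          exact le_add_of_nonneg_right (sq_nonneg _)
  · refine ⟨X ^ d, natDegree_X_pow d, of_origin hb0 ?_ ?_⟩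
    · simp [show d ≠ 0 by omega]
    · rcases Nat.even_or_odd d with he | ho
      · exact origin_of _ _ d (fun x y => x + y) he fun x y w hw => by
          rw [hw]
          simp only [eval_pow, eval_X]
          apply le_of_eq
          ring
      · exact origin_of _ _ (d + 1) (fun x y => x * y) ho.add_one fun x y w hw => by
          rw [hw]
          simp only [eval_pow, eval_X]
          apply le_of_eq
          ring

end Pool.Agent.Results.MP_8a808a_an.EveryDegree
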